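import Mathlib
import Pool.Agent.N741.HB.Stm

/-!
# HB/14, part A: arithmetic, combinatorics, small kernel vectors
-/

set_option autoImplicit false

namespace Pool.Agent.N603.HB

open Filter MvPolynomial Pool.Agent.Y902.GN Pool.Agent.N741.HB

/-! ### arithmetic -/

lemma root_bd {g : ℕ} (hg : 1 ≤ g) {P Q A A' : ℤ} (hP : P ≠ 0) (hQ : Q ≠ 0) (hA : A ≠ 0)
    (hA' : A' ≠ 0) (h : P * A ^ g = Q * A' ^ g) : ∃ r r' : ℤ, r ≠ 0 ∧ r' ≠ 0 ∧ |r| ≤ |P| ∧
      |r'| ≤ |Q| ∧ r * A = r' * A' := by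
  have hpos : 0 < Int.gcd A A' := Int.gcd_pos_of_ne_zero_left _ hA
  obtain ⟨a, b, hab, ha, hb⟩ := Int.exists_gcd_one hpos
  obtain ⟨D, hD⟩ : ∃ D : ℤ, D = (Int.gcd A A' : ℤ) := ⟨_, rfl⟩
  rw [← hD] at ha hb
  have hD0 : D ≠ 0 := by
    rw [hD]
    exact_mod_cast hpos.ne'
  have ha0 : a ≠ 0 := by
    rintro rfl
    rw [zero_mul] at ha
    exact hA ha
  have hb0 : b ≠ 0 := by
    rintro rfl
    rw [zero_mul] at hb
    exact hA' hb
  have h1 : P * a ^ g = Q * b ^ g := by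
    have h2 : (P * a ^ g) * D ^ g = (Q * b ^ g) * D ^ g := by
      rw [ha, hb, mul_pow, mul_pow] at h
      linear_combination h
    exact mul_right_cancel₀ (pow_ne_zero _ hD0) h2
  have hc : IsCoprime a b := Int.isCoprime_iff_gcd_eq_one.2 hab
  have h2 : b ^ g ∣ P := by
    have h3 : b ^ g ∣ P * a ^ g := by rw [h1]; exact dvd_mul_left _ _
    exact (hc.symm.pow_left.pow_right).dvd_of_dvd_mul_right h3
  have h3 : a ^ g ∣ Q := by
    have h4 : a ^ g ∣ Q * b ^ g := by rw [← h1]; exact dvd_mul_left _ _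
    exact (hc.pow_left.pow_right).dvd_of_dvd_mul_right h4
  have key : ∀ {c R : ℤ}, c ≠ 0 → R ≠ 0 → c ^ g ∣ R → |c| ≤ |R| := by
    intro c R hc0 hR hd
    have h5 : |c ^ g| ≤ |R| := Int.le_of_dvd (abs_pos.2 hR) ((abs_dvd_abs _ _).2 hd)
    rw [abs_pow] at h5
    have h6 : (1 : ℤ) ≤ |c| := Int.one_le_abs hc0
    exact (le_self_pow₀ h6 (by omega)).trans h5
  refine ⟨b, a, hb0, ha0, key hb0 hP h2, key ha0 hQ h3, ?_⟩
  rw [ha, hb]
  ring

/-! ### combinatorics -/

lemma classes {J γ : Type*} [DecidableEq J] [DecidableEq γ] (c : J → γ) (V : Finset J → Prop)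
    (h0 : V ∅) (hsd : ∀ K K0, V K → V K0 → K0 ⊆ K → V (K \ K0))
    (hun : ∀ K1 K2, V K1 → V K2 → Disjoint K1 K2 → V (K1 ∪ K2))
    (hmin : ∀ K, V K → K.Nonempty → (∀ K', K' ⊂ K → K'.Nonempty → ¬ V K') →
      ∀ x ∈ K, ∀ y ∈ K, c x = c y) :
    ∀ (n : ℕ) (K : Finset J), K.card ≤ n → V K → ∀ g, V (K.filter fun x => c x = g) := by
  classical
  intro n
  induction n with
  | zero =>
    intro K hK _ g
    have : K = ∅ := Finset.card_eq_zero.1 (by omega)
    rw [this, Finset.filter_empty]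
    exact h0
  | succ n ih =>
    intro K hK hV g
    rcases K.eq_empty_or_nonempty with he | hne
    · rw [he, Finset.filter_empty]
      exact h0
    · obtain ⟨K0, hK0, hmn⟩ := Finset.exists_min_image
        (K.powerset.filter fun K' => V K' ∧ K'.Nonempty) Finset.card
        ⟨K, Finset.mem_filter.2 ⟨Finset.mem_powerset_self K, hV, hne⟩⟩
      obtain ⟨hsub, hV0, hne0⟩ := Finset.mem_filter.1 hK0
      rw [Finset.mem_powerset] at hsub
      have hmin0 : ∀ K', K' ⊂ K0 → K'.Nonempty → ¬ V K' := by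
        intro K' hK' hne' hV'
        have h1 := hmn K' (Finset.mem_filter.2 ⟨Finset.mem_powerset.2 (hK'.subset.trans hsub),
          hV', hne'⟩)
        have h2 := Finset.card_lt_card hK'
        omega
      have hcls := hmin K0 hV0 hne0 hmin0
      have hc0 : 0 < K0.card := hne0.card_pos
      have hcard : (K \ K0).card ≤ n := by
        rw [Finset.card_sdiff_of_subset hsub]
        omega
      have h1 := ih (K \ K0) hcard (hsd K K0 hV hV0 hsub) g
      have h2 : V (K0.filter fun x => c x = g) := by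
        obtain ⟨y, hy⟩ := hne0
        by_cases hg : c y = g
        · have : K0.filter (fun x => c x = g) = K0 := by
            rw [Finset.filter_eq_self]
            intro x hx
            rw [hcls x hx y hy, hg]
          rw [this]
          exact hV0
        · have : K0.filter (fun x => c x = g) = ∅ := by
            rw [Finset.filter_eq_empty_iff]
            intro x hx
            rw [hcls x hx y hy]
            exact hg
          rw [this]
          exact h0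
      have h3 : K.filter (fun x => c x = g) =
          (K0.filter fun x => c x = g) ∪ ((K \ K0).filter fun x => c x = g) := by
        rw [← Finset.filter_union, Finset.union_sdiff_of_subset hsub]
      rw [h3]
      apply hun _ _ h2 h1
      exact Finset.disjoint_filter_filter Finset.disjoint_sdiff

/-! ### small kernel vectors -/

lemma ker_fam (hk : S_ker) {α J : Type} [Fintype J] (T : Finset α) (f : α → J → ℤ) (W : ℕ)
    (hf : ∀ t ∈ T, ∀ x, |f t x| ≤ 2 ^ W) (a : J → ℤ) (ha : a ≠ 0)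
    (h0 : ∀ t ∈ T, ∑ x, a x * f t x = 0) : ∃ a' : J → ℤ, a' ≠ 0 ∧
      (∀ t ∈ T, ∑ x, a' x * f t x = 0) ∧
      ∀ x, |a' x| ≤ 2 ^ ((Fintype.card J).factorial + W * Fintype.card J) := by
  obtain ⟨e⟩ : Nonempty (J ≃ Fin (Fintype.card J)) := ⟨Fintype.equivFin J⟩
  obtain ⟨k, w, lam, h1, h2⟩ := hk (Fintype.card J) {t // t ∈ T}
    (fun t j => f t.1 (e.symm j)) (2 ^ W) (one_le_pow₀ (by norm_num))
    (fun t j => hf t.1 t.2 _) (fun j => (a (e.symm j) : ℚ)) (by
      intro t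
      have h3 := h0 t.1 t.2
      rw [← e.symm.sum_comp] at h3
      have h4 : ((∑ j, a (e.symm j) * f t.1 (e.symm j) : ℤ) : ℚ) = 0 := by rw [h3]; rfl
      push_cast at h4
      rw [← h4]
      refine Finset.sum_congr rfl fun j _ => ?_
      ring)
  have h3 : ∃ l, w l ≠ 0 := by
    by_contra hcon
    push Not at hcon
    apply ha
    funext x
    have h4 := h2 (e x)
    rw [Finset.sum_eq_zero] at h4
    · rw [e.symm_apply_apply] at h4
      exact_mod_cast h4
    · intro l _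
      rw [hcon l]
      simp
  obtain ⟨l, hl⟩ := h3
  refine ⟨fun x => w l (e x), ?_, ?_, ?_⟩
  · intro h4
    apply hl
    funext j
    have h5 := congrFun h4 (e.symm j)
    simp only [e.apply_symm_apply] at h5
    exact h5
  · intro t ht
    have h4 := (h1 l).1 ⟨t, ht⟩
    simp only at h4
    rw [← e.sum_comp] at h4
    rw [← h4]
    refine Finset.sum_congr rfl fun x _ => ?_
    rw [e.symm_apply_apply]
    ring
  · intro x
    refine ((h1 l).2 (e x)).trans ?_
    rw [pow_add, pow_mul]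
    refine mul_le_mul_of_nonneg_right ?_ (by positivity)
    exact_mod_cast (Nat.lt_two_pow_self (n := (Fintype.card J).factorial)).le

/-! ### the terms -/

/-- the index set -/
abbrev JJ (d B : ℕ) := (Fin d → Fin (B + 1)) × Fin (B + 1)

/-- the monomial in the independent coordinates -/
def mv {d B N : ℕ} (ι : Fin d → Fin N) (t : Fin N → ℤ) (α : Fin d → Fin (B + 1)) : ℤ :=
  ∏ q, t (ι q) ^ (α q : ℕ)

/-- values of the terms -/
def tv {d B N : ℕ} (ι : Fin d → Fin N) (Ti Ti' : ℤ) (t : Fin N → ℤ) (x : JJ d B) : ℤ :=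
  mv ι t x.1 * (Ti ^ (x.2 : ℕ) * Ti' ^ (B - x.2))

lemma mv_ne {d B N : ℕ} {ι : Fin d → Fin N} {t : Fin N → ℤ} (ht : ∀ j, t j ≠ 0)
    (α : Fin d → Fin (B + 1)) : mv ι t α ≠ 0 :=
  Finset.prod_ne_zero_iff.2 fun _ _ => pow_ne_zero _ (ht _)

lemma mv_bd {d B N y : ℕ} {ι : Fin d → Fin N} {t : Fin N → ℤ} (ht : ∀ j, |t j| ≤ (y : ℤ))
    (α : Fin d → Fin (B + 1)) : |mv ι t α| ≤ ((y : ℤ) + 2) ^ (d * B) := by
  unfold mv
  rw [Finset.abs_prod]
  have a0 : (1 : ℤ) ≤ (y : ℤ) + 2 := by omega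
  calc ∏ q, |t (ι q) ^ (α q : ℕ)| ≤ ∏ _q : Fin d, ((y : ℤ) + 2) ^ B := by
        refine Finset.prod_le_prod (fun _ _ => abs_nonneg _) fun q _ => ?_
        rw [abs_pow]
        refine (pow_le_pow_left₀ (abs_nonneg _) ?_ _).trans (pow_le_pow_right₀ a0 ?_)
        · have := ht (ι q)
          linarith
        · have := (α q).2
          omega
    _ = ((y : ℤ) + 2) ^ (d * B) := by
        rw [Finset.prod_const, Finset.card_univ, Fintype.card_fin, ← pow_mul, mul_comm]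

lemma y_le (y : ℕ) : ((y : ℤ) + 2) ≤ 2 ^ (Nat.log 2 (y + 2) + 1) := by
  have h1 : y + 2 < 2 ^ (Nat.log 2 (y + 2) + 1) := Nat.lt_pow_succ_log_self (by norm_num) _
  exact_mod_cast h1.le

lemma tv_bd {d B N y w M : ℕ} {ι : Fin d → Fin N} {Ti Ti' : ℤ} {t : Fin N → ℤ}
    (ht : ∀ j, |t j| ≤ (y : ℤ)) (h1 : |Ti| ≤ 2 ^ w * ((y : ℤ) + 2) ^ M)
    (h2 : |Ti'| ≤ 2 ^ w * ((y : ℤ) + 2) ^ M) (x : JJ d B) :
    |tv ι Ti Ti' t x| ≤ 2 ^ ((Nat.log 2 (y + 2) + 1) * (d * B) +
      (w + (Nat.log 2 (y + 2) + 1) * M) * B) := by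
  obtain ⟨L, hL⟩ : ∃ L, L = Nat.log 2 (y + 2) + 1 := ⟨_, rfl⟩
  have hy := y_le y
  rw [← hL] at hy ⊢
  have y0 : (0 : ℤ) ≤ (y : ℤ) + 2 := by omega
  unfold tv
  rw [abs_mul, abs_mul, abs_pow, abs_pow, pow_add]
  have e1 : |mv ι t x.1| ≤ 2 ^ (L * (d * B)) := by
    refine (mv_bd ht x.1).trans ?_
    rw [pow_mul 2 L]
    exact pow_le_pow_left₀ y0 hy _
  have e0 : 2 ^ w * ((y : ℤ) + 2) ^ M ≤ 2 ^ (w + L * M) := by
    rw [pow_add, pow_mul 2 L]
    exact mul_le_mul_of_nonneg_left (pow_le_pow_left₀ y0 hy _) (by positivity)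
  have e2 : |Ti| ^ (x.2 : ℕ) * |Ti'| ^ (B - x.2) ≤ 2 ^ ((w + L * M) * B) := by
    have hx : (x.2 : ℕ) + (B - x.2) = B := by have := x.2.2; omega
    calc |Ti| ^ (x.2 : ℕ) * |Ti'| ^ (B - x.2) ≤
        (2 ^ (w + L * M)) ^ (x.2 : ℕ) * (2 ^ (w + L * M)) ^ (B - x.2) :=
          mul_le_mul (pow_le_pow_left₀ (abs_nonneg _) (h1.trans e0) _)
            (pow_le_pow_left₀ (abs_nonneg _) (h2.trans e0) _) (by positivity) (by positivity)
      _ = 2 ^ ((w + L * M) * B) := by rw [← pow_add, hx, ← pow_mul]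
  exact mul_le_mul e1 e2 (by positivity) (by positivity)

end Pool.Agent.N603.HB
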