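import Mathlib
import Pool.Agent.N603.HB.RatioA

/-!
# HB/14, part B: points of the hypersurface, small relations between the terms
-/

set_option autoImplicit false

namespace Pool.Agent.N603.HB

open Filter MvPolynomial Pool.Agent.Y902.GN Pool.Agent.N741.HB

section

variable {Y : ℕ → ℕ} {N n : ℕ} {Om : ℕ → Finset (Fin N → ℤ)}

/-- the zeros of a nonzero polynomial in the independent coordinates can be avoided -/
lemma avoid (hY : ∀ m : ℕ, ∀ᶠ ν in (Uf : Filter ℕ), m ≤ Y ν) (G : GD Y Om)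
    {c : ℕ → MvPolynomial (Fin G.d) ℤ} (hc : PB Y c) (hne : ∀ᶠ ν in (Uf : Filter ℕ), c ν ≠ 0)
    {Om1 : ℕ → Finset (Fin N → ℤ)} (hsub : ∀ᶠ ν in (Uf : Filter ℕ), Om1 ν ⊆ Om ν)
    (hbig : Big Y Om1) :
    Big Y (fun ν => (Om1 ν).filter fun t => eval (fun b => t (G.ι b)) (c ν) ≠ 0) := by
  classical
  rcases hbig.or hY (B := fun ν => (Om1 ν).filter fun t => eval (fun b => t (G.ι b)) (c ν) ≠ 0)
    (C := fun ν => (Om1 ν).filter fun t => eval (fun b => t (G.ι b)) (c ν) = 0)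
    (Filter.Eventually.of_forall fun ν t ht => by
      by_cases h1 : eval (fun b => t (G.ι b)) (c ν) = 0
      · exact Finset.mem_union_right _ (Finset.mem_filter.2 ⟨ht, h1⟩)
      · exact Finset.mem_union_left _ (Finset.mem_filter.2 ⟨ht, h1⟩)) with h1 | h1
  · exact h1
  · exfalso
    refine G.small c hc hne (h1.mono ?_)
    filter_upwards [hsub] with ν hν t ht
    obtain ⟨h2, h3⟩ := Finset.mem_filter.1 ht
    exact Finset.mem_filter.2 ⟨hν h2, h3⟩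

/-- a denominator for the polynomials which vanish on the generic fibre -/
lemma den (h1 : S_van) (G : GD Y Om) : ∃ l : ℕ → MvPolynomial (Fin G.d) ℤ, PB Y l ∧
    (∀ᶠ ν in (Uf : Filter ℕ), l ν ≠ 0) ∧ ∀ᶠ ν in (Uf : Filter ℕ), ∀ p, InP (G.h ν) p →
      ∃ k : ℕ, G.h ν ∣ rename some (l ν) ^ k * p := by
  have h2 : ∀ᶠ ν in (Uf : Filter ℕ), ∃ l : MvPolynomial (Fin G.d) ℤ, l ≠ 0 ∧
      l.totalDegree ≤ (G.h ν).totalDegree ∧ (∀ m, ∃ m', l.coeff m = (G.h ν).coeff m') ∧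
      ∀ p, InP (G.h ν) p → ∃ k : ℕ, G.h ν ∣ rename some l ^ k * p := by
    filter_upwards [G.hne, G.hone] with ν a b
    exact h1 G.d (G.h ν) a b
  obtain ⟨l, hl⟩ := h2.choice
  refine ⟨l, ?_, ?_, ?_⟩
  · obtain ⟨C, hC⟩ := G.hPB
    refine ⟨C, ?_⟩
    filter_upwards [hl, hC] with ν a b
    refine ⟨a.2.1.trans b.1, fun m => ?_⟩
    obtain ⟨m', hm'⟩ := a.2.2.1 m
    rw [hm']
    exact b.2 m'
  · filter_upwards [hl] with ν a
    exact a.1
  · filter_upwards [hl] with ν a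
    exact a.2.2.2

/-- a large subset where vanishing on the generic fibre implies vanishing, and `b0` is not zero -/
lemma good_set (h1 : S_van) (hY : ∀ m : ℕ, ∀ᶠ ν in (Uf : Filter ℕ), m ≤ Y ν) (G : GD Y Om)
    {Om1 : ℕ → Finset (Fin N → ℤ)} (hsub : ∀ᶠ ν in (Uf : Filter ℕ), Om1 ν ⊆ Om ν)
    (hbig : Big Y Om1) : ∃ Om2 : ℕ → Finset (Fin N → ℤ),
      (∀ᶠ ν in (Uf : Filter ℕ), Om2 ν ⊆ Om1 ν) ∧ Big Y Om2 ∧
      ∀ᶠ ν in (Uf : Filter ℕ), ∀ t ∈ Om2 ν,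
        eval (G.sp ν t) (rename some (G.b0 ν)) ≠ 0 ∧
        ∀ p, InP (G.h ν) p → eval (G.sp ν t) p = 0 := by
  obtain ⟨l, hl1, hl2, hl3⟩ := den h1 G
  have b1 := avoid hY G hl1 hl2 hsub hbig
  have s1 : ∀ᶠ ν in (Uf : Filter ℕ), ((Om1 ν).filter fun t =>
      eval (fun b => t (G.ι b)) (l ν) ≠ 0) ⊆ Om ν := by
    filter_upwards [hsub] with ν hν
    exact (Finset.filter_subset _ _).trans hν
  have b2 := avoid hY G G.b0PB G.b0ne s1 b1
  refine ⟨_, Filter.Eventually.of_forall fun ν =>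
    (Finset.filter_subset _ _).trans (Finset.filter_subset _ _), b2, ?_⟩
  filter_upwards [hl3, hsub, G.ev_h] with ν c1 c2 c3 t ht
  obtain ⟨h2, h3⟩ := Finset.mem_filter.1 ht
  obtain ⟨h4, h5⟩ := Finset.mem_filter.1 h2
  have hren : ∀ q : MvPolynomial (Fin G.d) ℤ, eval (G.sp ν t) (rename some q) =
      eval (fun b => t (G.ι b)) q := by
    intro q
    rw [eval_rename]
    rfl
  constructor
  · rw [hren]
    exact h3
  · intro p hp
    obtain ⟨k, q, hq⟩ := c1 p hp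
    have h6 := congrArg (eval (G.sp ν t)) hq
    have h7 : eval (G.sp ν t) (G.h ν) = 0 := c3 t (c2 h4)
    rw [map_mul, map_mul, map_pow, hren, h7, zero_mul] at h6
    exact (mul_eq_zero.1 h6).resolve_left (pow_ne_zero _ h5)

/-- sizes of the terms -/
lemma TD_bd (hb : Bdd Y Om) (S : TD Y N n) : ∀ᶠ ν in (Uf : Filter ℕ), ∀ t ∈ Om ν, ∀ i,
    S.T ν i t ≠ 0 ∧ |S.T ν i t| ≤ 2 ^ S.w ν * ((Y ν : ℤ) + 2) ^ S.M ν := by
  filter_upwards [hb, S.hu] with ν h1 h2 t ht i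
  refine ⟨mul_ne_zero (h2 i).1 (Finset.prod_ne_zero_iff.2 fun j _ =>
    pow_ne_zero _ (h1 t ht j).1), ?_⟩
  unfold TD.T
  rw [abs_mul, Finset.abs_prod]
  have a0 : (1 : ℤ) ≤ (Y ν : ℤ) + 2 := by omega
  have h3 : ∏ j, |t j ^ S.e ν i j| ≤ ∏ j, ((Y ν : ℤ) + 2) ^ S.e ν i j := by
    refine Finset.prod_le_prod (fun _ _ => abs_nonneg _) fun j _ => ?_
    rw [abs_pow]
    refine pow_le_pow_left₀ (abs_nonneg _) ?_ _
    have := (h1 t ht j).2
    linarith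
  rw [Finset.prod_pow_eq_pow_sum] at h3
  have hM : ∑ j, S.e ν i j ≤ S.M ν :=
    Finset.single_le_sum (f := fun i => ∑ j, S.e ν i j) (fun _ _ => Nat.zero_le _)
      (Finset.mem_univ i)
  have h4 : ((Y ν : ℤ) + 2) ^ (∑ j, S.e ν i j) ≤ ((Y ν : ℤ) + 2) ^ S.M ν :=
    pow_le_pow_right₀ a0 hM
  exact mul_le_mul (h2 i).2 (h3.trans h4) (Finset.prod_nonneg fun _ _ => abs_nonneg _)
    (by positivity)

lemma M_le (S : TD Y N n) (ν : ℕ) (i : Fin n) : ∑ j, S.e ν i j ≤ S.M ν :=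
  Finset.single_le_sum (f := fun i => ∑ j, S.e ν i j) (fun _ _ => Nat.zero_le _)
    (Finset.mem_univ i)

lemma few_M (S : TD Y N n) : Few Y S.M := fun c => S.he c

lemma few_w (S : TD Y N n) : Few Y S.w := fun c => S.hw c

/-- the exponent of the size of the terms -/
def W0 (Y : ℕ → ℕ) (d B : ℕ) {N n : ℕ} (S : TD Y N n) (ν : ℕ) : ℕ :=
  (Nat.log 2 (Y ν + 2) + 1) * (d * B) + (S.w ν + (Nat.log 2 (Y ν + 2) + 1) * S.M ν) * B

lemma few_W0 (hY : ∀ m : ℕ, ∀ᶠ ν in (Uf : Filter ℕ), m ≤ Y ν) (d B : ℕ) (S : TD Y N n) :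
    Few Y (W0 Y d B S) := by
  have hL : Few Y (fun ν => Nat.log 2 (Y ν + 2) + 1) := fun c => ev_log_pow hY c
  unfold W0
  exact Few.add hY (hL.mul (Few.const hY _))
    ((Few.add hY (few_w S) (hL.mul (few_M S))).mul (Few.const hY _))

/-- the exponent of the size of the coefficients -/
def W1 (Y : ℕ → ℕ) (d B : ℕ) {N n : ℕ} (S : TD Y N n) (ν : ℕ) : ℕ :=
  (Fintype.card (JJ d B)).factorial + W0 Y d B S ν * Fintype.card (JJ d B)

lemma few_W1 (hY : ∀ m : ℕ, ∀ᶠ ν in (Uf : Filter ℕ), m ≤ Y ν) (d B : ℕ) (S : TD Y N n) :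
    Few Y (W1 Y d B S) := by
  unfold W1
  exact Few.add hY (Few.const hY _) ((few_W0 hY d B S).mul (Few.const hY _))

/-- the value of the relation -/
lemma eval_rel {d B : ℕ} {b0 : MvPolynomial (Option (Fin d)) ℤ}
    {b : Fin N → MvPolynomial (Option (Fin d)) ℤ} {s : Option (Fin d) → ℤ} {t : Fin N → ℤ}
    {ι : Fin d → Fin N} (hs : ∀ q, s (some q) = t (ι q))
    (h : ∀ j, eval s b0 * t j = eval s (b j)) {e e' : Fin N → ℕ} {M : ℕ}
    (hM : ∑ j, e j ≤ M) (hM' : ∑ j, e' j ≤ M) (u u' : ℤ)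
    (a : (Fin d → Fin (B + 1)) → Fin (B + 1) → ℤ) :
    eval s (∑ α, ∑ j : Fin (B + 1), C (a α j) * ((∏ q, X (some q) ^ (α q : ℕ)) *
      ((C u * mon b0 b e M) ^ (j : ℕ) * (C u' * mon b0 b e' M) ^ (B - j)))) =
      (eval s b0 ^ M) ^ B *
        ∑ x : JJ d B, a x.1 x.2 * tv ι (u * ∏ j, t j ^ e j) (u' * ∏ j, t j ^ e' j) t x := by
  rw [map_sum, Fintype.sum_prod_type, Finset.mul_sum]
  refine Finset.sum_congr rfl fun α _ => ?_
  rw [map_sum, Finset.mul_sum]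
  refine Finset.sum_congr rfl fun j _ => ?_
  have hB : (eval s b0 ^ M) ^ B = (eval s b0 ^ M) ^ (j : ℕ) * (eval s b0 ^ M) ^ (B - j) := by
    rw [← pow_add]
    congr 1
    have := j.2
    omega
  rw [map_mul, map_mul, map_mul, map_pow, map_pow, map_mul, map_mul, eval_C, eval_C, eval_C,
    map_prod, eval_mon h hM (), eval_mon h hM' (), hB]
  have hp : ∏ q, eval s (X (some q) ^ (α q : ℕ)) = mv ι t α := by
    unfold mv
    refine Finset.prod_congr rfl fun q _ => ?_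
    rw [map_pow, eval_X, hs]
  rw [hp]
  unfold tv
  simp only [mul_pow]
  ring

/-- small relations between the terms -/
lemma small_rel (h1 : S_van) (h2 : S_ker) (hY : ∀ m : ℕ, ∀ᶠ ν in (Uf : Filter ℕ), m ≤ Y ν)
    (hb : Bdd Y Om) (G : GD Y Om) (S : TD Y N n) (i i' : Fin n) (B : ℕ)
    (h : ∀ᶠ ν in (Uf : Filter ℕ),
      ∃ a : (Fin G.d → Fin (B + 1)) → Fin (B + 1) → ℤ, a ≠ 0 ∧
        InP (G.h ν) (∑ α, ∑ j : Fin (B + 1), C (a α j) * ((∏ q, X (some q) ^ (α q : ℕ)) *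
          ((C (S.u ν i) * mon (rename some (G.b0 ν)) (fun j => G.b j ν) (S.e ν i) (S.M ν)) ^
            (j : ℕ) *
          (C (S.u ν i') * mon (rename some (G.b0 ν)) (fun j => G.b j ν) (S.e ν i') (S.M ν)) ^
            (B - j)))))
    {Om1 : ℕ → Finset (Fin N → ℤ)} (hsub : ∀ᶠ ν in (Uf : Filter ℕ), Om1 ν ⊆ Om ν)
    (hbig : Big Y Om1) : ∃ (Om2 : ℕ → Finset (Fin N → ℤ)) (a : ℕ → JJ G.d B → ℤ),
      (∀ᶠ ν in (Uf : Filter ℕ), Om2 ν ⊆ Om1 ν) ∧ Big Y Om2 ∧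
      ∀ᶠ ν in (Uf : Filter ℕ), a ν ≠ 0 ∧ (∀ x, |a ν x| ≤ 2 ^ W1 Y G.d B S ν) ∧
        ∀ t ∈ Om2 ν, ∑ x, a ν x * tv G.ι (S.T ν i t) (S.T ν i' t) t x = 0 := by
  obtain ⟨Om2, s1, s2, s3⟩ := good_set h1 hY G hsub hbig
  have key : ∀ᶠ ν in (Uf : Filter ℕ), ∃ a : JJ G.d B → ℤ, a ≠ 0 ∧
      (∀ x, |a x| ≤ 2 ^ W1 Y G.d B S ν) ∧
        ∀ t ∈ Om2 ν, ∑ x, a x * tv G.ι (S.T ν i t) (S.T ν i' t) t x = 0 := by
    filter_upwards [h, s1, s3, hsub, hb, TD_bd hb S, G.ev_b] with ν c1 c2 c3 c4 c5 c6 c7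
    obtain ⟨a, ha, hin⟩ := c1
    obtain ⟨a', e1, e2, e3⟩ := ker_fam h2 (Om2 ν)
      (fun t x => tv G.ι (S.T ν i t) (S.T ν i' t) t x) (W0 Y G.d B S ν) (by
        intro t ht x
        have ht' := c4 (c2 ht)
        exact tv_bd (fun j => (c5 t ht' j).2) (c6 t ht' i).2 (c6 t ht' i').2 x)
      (fun x : JJ G.d B => a x.1 x.2) (by
        intro h0
        apply ha
        funext α j
        exact congrFun h0 (α, j)) (by
        intro t ht
        have ht' := c4 (c2 ht)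
        have h3 := (c3 t ht).2 _ hin
        have hrel : ∀ j, eval (G.sp ν t) (rename some (G.b0 ν)) * t j =
            eval (G.sp ν t) (G.b j ν) := by
          intro j
          have h4 := c7 t ht' j
          rw [eval_rename]
          exact h4
        rw [eval_rel (ι := G.ι) (t := t) (fun q => rfl) hrel (M_le S ν i) (M_le S ν i')] at h3
        exact (mul_eq_zero.1 h3).resolve_left (pow_ne_zero _ (pow_ne_zero _ (c3 t ht).1)))
    exact ⟨a', e1, e3, e2⟩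
  obtain ⟨a, ha⟩ := key.choice
  exact ⟨Om2, a, s1, s2, ha⟩

end

end Pool.Agent.N603.HB
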