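import Mathlib
import Pool.Agent.N603.HB.RatioB

/-!
# HB/14: an algebraic relation of bounded degree implies that the ratio is nearly constant
-/

set_option autoImplicit false

namespace Pool.Agent.N603.HB

open Filter MvPolynomial Pool.Agent.Y902.GN Pool.Agent.N741.HB

section

variable {Y : ℕ → ℕ} {N n : ℕ} {Om : ℕ → Finset (Fin N → ℤ)}

/-- a dichotomy for the partial sums, on a large subset -/
lemma dich {J : Type} [Fintype J] [DecidableEq J] (hY : ∀ m : ℕ, ∀ᶠ ν in (Uf : Filter ℕ), m ≤ Y ν)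
    {Om2 : ℕ → Finset (Fin N → ℤ)} (hbig : Big Y Om2) (F : ℕ → (Fin N → ℤ) → J → ℤ) :
    ∃ Om3 : ℕ → Finset (Fin N → ℤ), (∀ᶠ ν in (Uf : Filter ℕ), Om3 ν ⊆ Om2 ν) ∧ Big Y Om3 ∧
      ∀ K : Finset J, (∀ᶠ ν in (Uf : Filter ℕ), ∀ t ∈ Om3 ν, ∑ x ∈ K, F ν t x = 0) ∨
        ∀ᶠ ν in (Uf : Filter ℕ), ∀ t ∈ Om3 ν, ∑ x ∈ K, F ν t x ≠ 0 := by
  classical
  obtain ⟨Om3, s1, s2, s3⟩ := hbig.fiber
    (fun ν t => (Finset.univ : Finset (Finset J)).filter fun K => ∑ x ∈ K, F ν t x = 0)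
    (fun _ => Finset.univ) (Filter.Eventually.of_forall fun ν t _ => Finset.mem_univ _)
    (Few.const hY _)
  refine ⟨Om3, s1, s2, fun K => ?_⟩
  have hiff : ∀ᶠ ν in (Uf : Filter ℕ), ∀ t ∈ Om3 ν, ∀ t' ∈ Om3 ν,
      (∑ x ∈ K, F ν t x = 0 ↔ ∑ x ∈ K, F ν t' x = 0) := by
    filter_upwards [s3] with ν hν t ht t' ht'
    have h1 : K ∈ ((Finset.univ : Finset (Finset J)).filter fun K => ∑ x ∈ K, F ν t x = 0) ↔
        K ∈ ((Finset.univ : Finset (Finset J)).filter fun K => ∑ x ∈ K, F ν t' x = 0) := by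
      rw [hν t ht t' ht']
    simpa using h1
  have h2 : ∀ᶠ ν in (Uf : Filter ℕ), ((∀ t ∈ Om3 ν, ∑ x ∈ K, F ν t x = 0) ∨
      ∀ t ∈ Om3 ν, ∑ x ∈ K, F ν t x ≠ 0) := by
    filter_upwards [hiff] with ν hν
    by_cases h3 : ∃ t ∈ Om3 ν, ∑ x ∈ K, F ν t x = 0
    · left
      obtain ⟨t, ht, h4⟩ := h3
      exact fun t' ht' => (hν t ht t' ht').1 h4
    · right
      intro t ht h4
      exact h3 ⟨t, ht, h4⟩
  exact ev_or.1 h2

/-- exponents of the terms -/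
def ex {d B : ℕ} (ι : Fin d → Fin N) (e e' : Fin N → ℕ) (x : JJ d B) (k : Fin N) : ℕ :=
  (∑ q, if ι q = k then (x.1 q : ℕ) else 0) + ((x.2 : ℕ) * e k + (B - x.2) * e' k)

lemma prod_ex {d B : ℕ} (ι : Fin d → Fin N) (e e' : Fin N → ℕ) (t : Fin N → ℤ) (x : JJ d B)
    (u u' : ℤ) : (u ^ (x.2 : ℕ) * u' ^ (B - x.2)) * ∏ k, t k ^ ex ι e e' x k =
      tv ι (u * ∏ k, t k ^ e k) (u' * ∏ k, t k ^ e' k) t x := by
  have h1 : ∏ k, t k ^ (∑ q, if ι q = k then (x.1 q : ℕ) else 0) = mv ι t x.1 := by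
    unfold mv
    simp_rw [← Finset.prod_pow_eq_pow_sum]
    rw [Finset.prod_comm]
    refine Finset.prod_congr rfl fun q _ => ?_
    rw [Finset.prod_eq_single (ι q)]
    · rw [if_pos rfl]
    · intro k _ hk
      rw [if_neg (Ne.symm hk), pow_zero]
    · intro h
      exact absurd (Finset.mem_univ _) h
  unfold ex tv
  simp_rw [pow_add]
  rw [Finset.prod_mul_distrib, Finset.prod_mul_distrib, h1, mul_pow, mul_pow,
    ← Finset.prod_pow, ← Finset.prod_pow]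
  have h2 : ∀ (f : Fin N → ℕ) (m : ℕ), ∏ k, t k ^ (m * f k) = ∏ k, (t k ^ f k) ^ m := by
    intro f m
    refine Finset.prod_congr rfl fun k _ => ?_
    rw [← pow_mul, mul_comm]
  rw [h2, h2]
  ring

lemma sum_ex {d B M : ℕ} (ι : Fin d → Fin N) (e e' : Fin N → ℕ) (h : ∑ k, e k ≤ M)
    (h' : ∑ k, e' k ≤ M) (x : JJ d B) : ∑ k, ex ι e e' x k ≤ d * B + 2 * B * M := by
  unfold ex
  rw [Finset.sum_add_distrib, Finset.sum_add_distrib, Finset.sum_comm, ← Finset.mul_sum,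
    ← Finset.mul_sum]
  have h1 : ∑ q, ∑ k, (if ι q = k then (x.1 q : ℕ) else 0) ≤ d * B := by
    have h2 : ∀ q, ∑ k, (if ι q = k then (x.1 q : ℕ) else 0) ≤ B := by
      intro q
      rw [Finset.sum_ite_eq]
      split_ifs
      · have := (x.1 q).2; omega
      · omega
    calc _ ≤ ∑ _q : Fin d, B := Finset.sum_le_sum fun q _ => h2 q
      _ = d * B := by rw [Finset.sum_const, Finset.card_univ, Fintype.card_fin, smul_eq_mul]
  have hx : (x.2 : ℕ) ≤ B := by have := x.2.2; omega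
  have h2 : (x.2 : ℕ) * ∑ k, e k ≤ B * M := Nat.mul_le_mul hx h
  have h3 : (B - x.2) * ∑ k, e' k ≤ B * M := Nat.mul_le_mul (Nat.sub_le _ _) h'
  have h4 : 2 * B * M = B * M + B * M := by ring
  omega

/-- the polynomials of the second case are mild -/
lemma mild_poly {d B : ℕ} {W : ℕ → ℕ} (hY : ∀ m : ℕ, ∀ᶠ ν in (Uf : Filter ℕ), m ≤ Y ν)
    (hW : Few Y W) (c : ℕ → (Fin d → Fin (B + 1)) → ℤ)
    (hc : ∀ᶠ ν in (Uf : Filter ℕ), ∀ α, |c ν α| ≤ 2 ^ W ν) :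
    Mild Y (fun ν => ∑ α, C (c ν α) * ∏ b, (X b : MvPolynomial (Fin d) ℤ) ^ (α b : ℕ)) := by
  classical
  refine ⟨fun ν => W ν + (Fintype.card (Fin d → Fin (B + 1)) + d * B), Few.add hY hW
    (Few.const hY _), ?_⟩
  have h1 : ∀ (α : Fin d → Fin (B + 1)) (z : ℤ), C z * ∏ b, (X b : MvPolynomial (Fin d) ℤ) ^
      (α b : ℕ) = monomial (Finsupp.equivFunOnFinite.symm fun b => (α b : ℕ)) z := by
    intro α z
    rw [monomial_eq, Finsupp.prod_fintype _ _ (fun i => pow_zero _)]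
    rfl
  filter_upwards [hc] with ν hν
  constructor
  · refine (totalDegree_finsetSum_le (d := d * B) fun α _ => ?_).trans (by omega)
    rw [h1]
    refine (totalDegree_monomial_le _ _).trans ?_
    rw [Finsupp.sum_fintype _ _ (fun i => rfl)]
    calc ∑ b, (Finsupp.equivFunOnFinite.symm fun b => (α b : ℕ)) b ≤ ∑ _b : Fin d, B :=
          Finset.sum_le_sum fun b _ => by
            have := (α b).2
            simp only [Finsupp.equivFunOnFinite_symm_apply_apply]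
            omega
      _ = d * B := by rw [Finset.sum_const, Finset.card_univ, Fintype.card_fin, smul_eq_mul]
  · intro m
    rw [coeff_sum]
    have h2 : ∀ α : Fin d → Fin (B + 1), |coeff m (C (c ν α) * ∏ b,
        (X b : MvPolynomial (Fin d) ℤ) ^ (α b : ℕ))| ≤ 2 ^ W ν := by
      intro α
      rw [h1, coeff_monomial]
      split_ifs
      · exact hν α
      · rw [abs_zero]; positivity
    calc |∑ α, coeff m (C (c ν α) * ∏ b, (X b : MvPolynomial (Fin d) ℤ) ^ (α b : ℕ))| ≤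
        ∑ α, |coeff m (C (c ν α) * ∏ b, (X b : MvPolynomial (Fin d) ℤ) ^ (α b : ℕ))| :=
          Finset.abs_sum_le_sum_abs _ _
      _ ≤ ∑ _α : Fin d → Fin (B + 1), (2 : ℤ) ^ W ν := Finset.sum_le_sum fun α _ => h2 α
      _ = (Fintype.card (Fin d → Fin (B + 1)) : ℤ) * 2 ^ W ν := by
          rw [Finset.sum_const, Finset.card_univ, nsmul_eq_mul]
      _ ≤ 2 ^ (Fintype.card (Fin d → Fin (B + 1)) + d * B) * 2 ^ W ν := by
          refine mul_le_mul_of_nonneg_right ?_ (by positivity)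
          have h3 : Fintype.card (Fin d → Fin (B + 1)) ≤
              2 ^ (Fintype.card (Fin d → Fin (B + 1)) + d * B) :=
            (Nat.lt_two_pow_self).le.trans (Nat.pow_le_pow_right (by norm_num) (by omega))
          exact_mod_cast h3
      _ = 2 ^ (W ν + (Fintype.card (Fin d → Fin (B + 1)) + d * B)) := by
          rw [← pow_add]
          congr 1
          ring

/-- the second case is impossible -/
lemma no_classes (h3 : S_start) (hY : ∀ m : ℕ, ∀ᶠ ν in (Uf : Filter ℕ), m ≤ Y ν)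
    (hb : Bdd Y Om) (G : GD Y Om) (S : TD Y N n) (i i' : Fin n) {B : ℕ}
    {Om3 : ℕ → Finset (Fin N → ℤ)} (a : ℕ → JJ G.d B → ℤ)
    (hsub : ∀ᶠ ν in (Uf : Filter ℕ), Om3 ν ⊆ Om ν) (hbig : Big Y Om3)
    (ha : ∀ᶠ ν in (Uf : Filter ℕ), a ν ≠ 0 ∧ ∀ x, |a ν x| ≤ 2 ^ W1 Y G.d B S ν)
    (hv : ∀ g : Fin (B + 1), ∀ᶠ ν in (Uf : Filter ℕ), ∀ t ∈ Om3 ν,
      ∑ x ∈ Finset.univ.filter (fun x : JJ G.d B => x.2 = g),
        a ν x * tv G.ι (S.T ν i t) (S.T ν i' t) t x = 0) : False := by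
  classical
  have h4 : ∀ᶠ ν in (Uf : Filter ℕ), ∃ g : Fin (B + 1), ∃ α, a ν (α, g) ≠ 0 := by
    filter_upwards [ha] with ν hν
    by_contra hcon
    push Not at hcon
    exact hν.1 (funext fun x => hcon x.2 x.1)
  obtain ⟨g, hg⟩ := ev_exists h4
  have hm : Mild Y (fun ν => ∑ α, C (a ν (α, g)) * ∏ b,
      (X b : MvPolynomial (Fin G.d) ℤ) ^ (α b : ℕ)) := by
    apply mild_poly hY (few_W1 hY G.d B S)
    filter_upwards [ha] with ν hν α
    exact hν.2 (α, g)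
  have hne : ∀ᶠ ν in (Uf : Filter ℕ), (∑ α, C (a ν (α, g)) * ∏ b,
      (X b : MvPolynomial (Fin G.d) ℤ) ^ (α b : ℕ)) ≠ 0 := by
    filter_upwards [hg] with ν hν h0
    obtain ⟨α, hα⟩ := hν
    exact hα (congrFun (coeffs_zero _ h0) α)
  refine h3 Y N Om hY hb G _ hm hne (hbig.mono ?_)
  filter_upwards [hsub, hv g, TD_bd hb S] with ν c1 c2 c3 t ht
  refine Finset.mem_filter.2 ⟨c1 ht, ?_⟩
  have h5 := c2 t ht
  have h6 : ∑ x ∈ Finset.univ.filter (fun x : JJ G.d B => x.2 = g),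
      a ν x * tv G.ι (S.T ν i t) (S.T ν i' t) t x =
      (∑ α, a ν (α, g) * mv G.ι t α) * (S.T ν i t ^ (g : ℕ) * S.T ν i' t ^ (B - g)) := by
    rw [Finset.sum_filter, Fintype.sum_prod_type, Finset.sum_mul]
    refine Finset.sum_congr rfl fun α _ => ?_
    rw [Finset.sum_ite_eq' Finset.univ g, if_pos (Finset.mem_univ _)]
    unfold tv
    ring
  rw [h6] at h5
  have h7 := (mul_eq_zero.1 h5).resolve_right (mul_ne_zero (pow_ne_zero _ (c3 t (c1 ht) i).1)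
    (pow_ne_zero _ (c3 t (c1 ht) i').1))
  rw [map_sum, ← h7]
  refine Finset.sum_congr rfl fun α _ => ?_
  rw [map_mul, eval_C, map_prod]
  unfold mv
  congr 1
  refine Finset.prod_congr rfl fun q _ => ?_
  rw [map_pow, eval_X]

/-- the ratio is nearly constant if two terms of different classes are -/
lemma final_step {d B : ℕ} (ι : Fin d → Fin N) (Om4 : ℕ → Finset (Fin N → ℤ)) (S : TD Y N n)
    (i i' : Fin n) (a : ℕ → JJ d B → ℤ) (x₁ x₂ : JJ d B) (hlt : (x₂.2 : ℕ) < x₁.2)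
    (hbd : ∀ᶠ ν in (Uf : Filter ℕ), ∀ t ∈ Om4 ν, (∀ j, t j ≠ 0 ∧ |t j| ≤ (Y ν : ℤ)) ∧
      S.T ν i t ≠ 0 ∧ S.T ν i' t ≠ 0)
    (ha : ∀ᶠ ν in (Uf : Filter ℕ), a ν x₁ ≠ 0 ∧ a ν x₂ ≠ 0)
    (h : ∃ C : ℕ, ∀ᶠ ν in (Uf : Filter ℕ), ∀ t ∈ Om4 ν, ∀ t' ∈ Om4 ν, ∃ r r' : ℤ, r ≠ 0 ∧
      r' ≠ 0 ∧ |r| ≤ ((Y ν : ℤ) + 2) ^ C ∧ |r'| ≤ ((Y ν : ℤ) + 2) ^ C ∧
      r * ((a ν x₁ * tv ι (S.T ν i t) (S.T ν i' t) t x₁) *
        (a ν x₂ * tv ι (S.T ν i t') (S.T ν i' t') t' x₂)) =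
      r' * ((a ν x₁ * tv ι (S.T ν i t') (S.T ν i' t') t' x₁) *
        (a ν x₂ * tv ι (S.T ν i t) (S.T ν i' t) t x₂))) : NCt S Om4 i i' := by
  obtain ⟨C, hC⟩ := h
  refine ⟨C + (d * B + d * B), ?_⟩
  filter_upwards [hC, hbd, ha] with ν c1 c2 c3 t ht t' ht'
  obtain ⟨r, r', hr, hr', hr1, hr2, he⟩ := c1 t ht t' ht'
  obtain ⟨b1, b2, b3⟩ := c2 t ht
  obtain ⟨b1', b2', b3'⟩ := c2 t' ht'
  obtain ⟨g, hg⟩ : ∃ g, (x₁.2 : ℕ) = x₂.2 + g := ⟨x₁.2 - x₂.2, by omega⟩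
  have hg1 : 1 ≤ g := by omega
  have hB : B - (x₂.2 : ℕ) = (B - x₁.2) + g := by
    have := x₁.2.2
    omega
  obtain ⟨A, hA⟩ : ∃ A : ℤ, A = S.T ν i t * S.T ν i' t' := ⟨_, rfl⟩
  obtain ⟨A', hA'⟩ : ∃ A' : ℤ, A' = S.T ν i t' * S.T ν i' t := ⟨_, rfl⟩
  have key : (r * (mv ι t x₁.1 * mv ι t' x₂.1)) * A ^ g =
      (r' * (mv ι t' x₁.1 * mv ι t x₂.1)) * A' ^ g := by
    have hD : (a ν x₁ * a ν x₂) * ((S.T ν i t ^ (x₂.2 : ℕ) * S.T ν i' t ^ (B - (x₁.2 : ℕ))) *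
        (S.T ν i t' ^ (x₂.2 : ℕ) * S.T ν i' t' ^ (B - (x₁.2 : ℕ)))) ≠ 0 :=
      mul_ne_zero (mul_ne_zero c3.1 c3.2) (mul_ne_zero
        (mul_ne_zero (pow_ne_zero _ b2) (pow_ne_zero _ b3))
        (mul_ne_zero (pow_ne_zero _ b2') (pow_ne_zero _ b3')))
    apply mul_left_cancel₀ hD
    unfold tv at he
    rw [hB, hg, pow_add, pow_add, pow_add, pow_add] at he
    rw [hA, hA', mul_pow, mul_pow]
    rw [hg]
    linear_combination he
  have hA0 : A ≠ 0 := by rw [hA]; exact mul_ne_zero b2 b3'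
  have hA0' : A' ≠ 0 := by rw [hA']; exact mul_ne_zero b2' b3
  have m1 := mv_ne (ι := ι) (fun j => (b1 j).1) x₁.1
  have m2 := mv_ne (ι := ι) (fun j => (b1 j).1) x₂.1
  have m1' := mv_ne (ι := ι) (fun j => (b1' j).1) x₁.1
  have m2' := mv_ne (ι := ι) (fun j => (b1' j).1) x₂.1
  obtain ⟨s, s', hs, hs', hs1, hs2, hse⟩ := root_bd hg1 (mul_ne_zero hr (mul_ne_zero m1 m2'))
    (mul_ne_zero hr' (mul_ne_zero m1' m2)) hA0 hA0' key
  have bd : ∀ {z z1 z2 : ℤ}, |z| ≤ ((Y ν : ℤ) + 2) ^ C → |z1| ≤ ((Y ν : ℤ) + 2) ^ (d * B) →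
      |z2| ≤ ((Y ν : ℤ) + 2) ^ (d * B) → |z * (z1 * z2)| ≤
        ((Y ν : ℤ) + 2) ^ (C + (d * B + d * B)) := by
    intro z z1 z2 g1 g2 g3
    rw [abs_mul, abs_mul, pow_add, pow_add]
    exact mul_le_mul g1 (mul_le_mul g2 g3 (abs_nonneg _) (by positivity)) (by positivity)
      (by positivity)
  refine ⟨s, s', hs, hs', hs1.trans (bd hr1 (mv_bd (fun j => (b1 j).2) _)
    (mv_bd (fun j => (b1' j).2) _)), hs2.trans (bd hr2 (mv_bd (fun j => (b1' j).2) _)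
    (mv_bd (fun j => (b1 j).2) _)), ?_⟩
  rw [← hA, ← hA']
  exact hse

/-- the system of the terms of a vanishing subset -/
lemma use_gct (hY : ∀ m : ℕ, ∀ᶠ ν in (Uf : Filter ℕ), m ≤ Y ν) {d B : ℕ} (ι : Fin d → Fin N)
    {Om3 : ℕ → Finset (Fin N → ℤ)} (hbig : Big Y Om3) (hb : Bdd Y Om3) (S : TD Y N n)
    (i i' : Fin n) {W : ℕ → ℕ} (hW : Few Y W) (a : ℕ → JJ d B → ℤ)
    (ha : ∀ᶠ ν in (Uf : Filter ℕ), ∀ x, |a ν x| ≤ 2 ^ W ν) (K : Finset (JJ d B))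
    (hne : ∀ᶠ ν in (Uf : Filter ℕ), ∀ x ∈ K, a ν x ≠ 0)
    (hK : ∀ᶠ ν in (Uf : Filter ℕ), ∀ t ∈ Om3 ν,
      ∑ x ∈ K, a ν x * tv ι (S.T ν i t) (S.T ν i' t) t x = 0)
    (hmin : ∀ K', K' ⊂ K → K'.Nonempty → ∀ᶠ ν in (Uf : Filter ℕ), ∀ t ∈ Om3 ν,
      ∑ x ∈ K', a ν x * tv ι (S.T ν i t) (S.T ν i' t) t x ≠ 0) :
    ∃ Om4 : ℕ → Finset (Fin N → ℤ), (∀ᶠ ν in (Uf : Filter ℕ), Om4 ν ⊆ Om3 ν) ∧ Big Y Om4 ∧
      ∀ x₁ ∈ K, ∀ x₂ ∈ K, ∃ C : ℕ, ∀ᶠ ν in (Uf : Filter ℕ), ∀ t ∈ Om4 ν, ∀ t' ∈ Om4 ν,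
      ∃ r r' : ℤ, r ≠ 0 ∧ r' ≠ 0 ∧ |r| ≤ ((Y ν : ℤ) + 2) ^ C ∧ |r'| ≤ ((Y ν : ℤ) + 2) ^ C ∧
      r * ((a ν x₁ * tv ι (S.T ν i t) (S.T ν i' t) t x₁) *
        (a ν x₂ * tv ι (S.T ν i t') (S.T ν i' t') t' x₂)) =
      r' * ((a ν x₁ * tv ι (S.T ν i t') (S.T ν i' t') t' x₁) *
        (a ν x₂ * tv ι (S.T ν i t) (S.T ν i' t) t x₂)) := by
  classical
  obtain ⟨e⟩ : Nonempty (Fin K.card ≃ K) := ⟨K.equivFin.symm⟩
  have hval : ∀ (ν : ℕ) (t : Fin N → ℤ) (q : Fin K.card),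
      (a ν (e q).1 * (S.u ν i ^ ((e q).1.2 : ℕ) * S.u ν i' ^ (B - (e q).1.2))) *
        ∏ k, t k ^ ex ι (S.e ν i) (S.e ν i') (e q).1 k =
      a ν (e q).1 * tv ι (S.T ν i t) (S.T ν i' t) t (e q).1 := by
    intro ν t q
    rw [mul_assoc, prod_ex]
    rfl
  let S' : TS Y Om3 K.card :=
    { e := fun ν q => ex ι (S.e ν i) (S.e ν i') (e q).1
      u := fun ν q => a ν (e q).1 * (S.u ν i ^ ((e q).1.2 : ℕ) * S.u ν i' ^ (B - (e q).1.2))
      w := fun ν => W ν + S.w ν * B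
      he := by
        have h1 : Few Y (fun ν => K.card * (d * B + 2 * B * S.M ν)) :=
          (Few.const hY _).mul (Few.add hY (Few.const hY _) ((Few.const hY _).mul (few_M S)))
        refine fun c => (h1.mono (Filter.Eventually.of_forall fun ν => ?_)) c
        calc ∑ q, ∑ k, ex ι (S.e ν i) (S.e ν i') (e q).1 k ≤
            ∑ _q : Fin K.card, (d * B + 2 * B * S.M ν) :=
              Finset.sum_le_sum fun q _ => sum_ex ι _ _ (M_le S ν i) (M_le S ν i') _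
          _ = K.card * (d * B + 2 * B * S.M ν) := by
              rw [Finset.sum_const, Finset.card_univ, Fintype.card_fin, smul_eq_mul]
      hu := by
        filter_upwards [ha, hne, S.hu] with ν c1 c2 c3 q
        refine ⟨mul_ne_zero (c2 _ (e q).2) (mul_ne_zero (pow_ne_zero _ (c3 i).1)
          (pow_ne_zero _ (c3 i').1)), ?_⟩
        have hx : ((e q).1.2 : ℕ) + (B - (e q).1.2) = B := by have := (e q).1.2.2; omega
        rw [abs_mul, abs_mul, abs_pow, abs_pow, pow_add]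
        refine mul_le_mul (c1 _) ?_ (by positivity) (by positivity)
        calc |S.u ν i| ^ ((e q).1.2 : ℕ) * |S.u ν i'| ^ (B - (e q).1.2) ≤
            (2 ^ S.w ν) ^ ((e q).1.2 : ℕ) * (2 ^ S.w ν) ^ (B - (e q).1.2) :=
              mul_le_mul (pow_le_pow_left₀ (abs_nonneg _) (c3 i).2 _)
                (pow_le_pow_left₀ (abs_nonneg _) (c3 i').2 _) (by positivity) (by positivity)
          _ = 2 ^ (S.w ν * B) := by rw [← pow_add, hx, ← pow_mul]
      hw := fun c => (Few.add hY hW ((few_w S).mul (Few.const hY B))) c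
      sum0 := by
        filter_upwards [hK] with ν c1 t ht
        rw [← c1 t ht, ← Finset.sum_coe_sort K, ← e.sum_comp]
        exact Finset.sum_congr rfl fun q _ => hval ν t q }
  have hT : ∀ ν q t, S'.T ν q t = a ν (e q).1 * tv ι (S.T ν i t) (S.T ν i' t) t (e q).1 :=
    fun ν q t => hval ν t q
  have hNVS : NVS S' := by
    have h1 : ∀ K' : Finset (Fin K.card), ∀ᶠ ν in (Uf : Filter ℕ), ∀ t ∈ Om3 ν,
        K'.Nonempty → K' ≠ Finset.univ → ∑ q ∈ K', S'.T ν q t ≠ 0 := by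
      intro K'
      by_cases hK1 : K'.Nonempty
      · by_cases hK2 : K' = Finset.univ
        · exact Filter.Eventually.of_forall fun ν t _ _ h => absurd hK2 h
        · have hinj : Function.Injective (fun q : Fin K.card => (e q).1) :=
            fun q q' h => e.injective (Subtype.ext h)
          have hsub : K'.image (fun q : Fin K.card => (e q).1) ⊂ K := by
            rw [Finset.ssubset_iff_subset_ne]
            constructor
            · intro x hx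
              obtain ⟨q, -, rfl⟩ := Finset.mem_image.1 hx
              exact (e q).2
            · intro h
              have h2 := congrArg Finset.card h
              rw [Finset.card_image_of_injective _ hinj] at h2
              apply hK2
              rw [← Finset.card_eq_iff_eq_univ, h2, Fintype.card_fin]
          filter_upwards [hmin _ hsub (hK1.image _)] with ν c1 t ht _ _
          have h3 := c1 t ht
          rw [Finset.sum_image (fun q _ q' _ h => hinj h)] at h3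
          simp only [hT]
          exact h3
      · exact Filter.Eventually.of_forall fun ν t _ h => absurd h hK1
    unfold NVS
    filter_upwards [Filter.eventually_all.2 h1] with ν c1 t ht K' h2 h3
    exact c1 K' t ht h2 h3
  obtain ⟨Om4, g1, g2, g3⟩ := gct hY hbig hb S' hNVS
  refine ⟨Om4, g1, g2, fun x₁ hx₁ x₂ hx₂ => ?_⟩
  obtain ⟨C, hC⟩ := g3 (e.symm ⟨x₁, hx₁⟩) (e.symm ⟨x₂, hx₂⟩)
  refine ⟨C, ?_⟩
  filter_upwards [hC] with ν c1 t ht t' ht'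
  have h1 := c1 t ht t' ht'
  simp only [hT, e.apply_symm_apply] at h1
  exact h1

end

/-- **HB/14.** -/
theorem ratio (h1 : S_van) (h2 : S_ker) (h3 : S_start) : S_ratio := by
  classical
  intro Y N n Om hY hb G S i i' B h Om₁ hsub hbig
  obtain ⟨Om2, a, s1, s2, s3⟩ := small_rel h1 h2 hY hb G S i i' B h hsub hbig
  obtain ⟨Om3, s4, s5, s6⟩ := dich hY s2
    (fun ν t x => a ν x * tv G.ι (S.T ν i t) (S.T ν i' t) t x)
  have sub3 : ∀ᶠ ν in (Uf : Filter ℕ), Om3 ν ⊆ Om ν := by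
    filter_upwards [s4, s1, hsub] with ν c1 c2 c3
    exact (c1.trans c2).trans c3
  have hb3 : Bdd Y Om3 := by
    unfold Bdd at hb ⊢
    filter_upwards [hb, sub3] with ν c1 c2 t ht
    exact c1 t (c2 ht)
  obtain ⟨V, hV⟩ : ∃ V : Finset (JJ G.d B) → Prop, ∀ K, V K ↔ ∀ᶠ ν in (Uf : Filter ℕ),
      ∀ t ∈ Om3 ν, ∑ x ∈ K, a ν x * tv G.ι (S.T ν i t) (S.T ν i' t) t x = 0 :=
    ⟨_, fun K => Iff.rfl⟩
  have hdich : ∀ K, ¬ V K → ∀ᶠ ν in (Uf : Filter ℕ), ∀ t ∈ Om3 ν,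
      ∑ x ∈ K, a ν x * tv G.ι (S.T ν i t) (S.T ν i' t) t x ≠ 0 := fun K hK =>
    (s6 K).resolve_left fun h => hK ((hV K).2 h)
  have huniv : V Finset.univ := by
    rw [hV]
    filter_upwards [s3, s4] with ν c1 c2 t ht
    exact c1.2.2 t (c2 ht)
  by_cases hex : ∃ K, V K ∧ (∀ K', K' ⊂ K → K'.Nonempty → ¬ V K') ∧
      ∃ x₁ ∈ K, ∃ x₂ ∈ K, (x₂.2 : ℕ) < x₁.2
  · obtain ⟨K, hK, hmin, x₁, hx₁, x₂, hx₂, hlt⟩ := hex
    have hne12 : x₁ ≠ x₂ := by
      rintro rfl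
      exact lt_irrefl _ hlt
    have hne : ∀ᶠ ν in (Uf : Filter ℕ), ∀ x ∈ K, a ν x ≠ 0 := by
      have h4 : ∀ x, ∀ᶠ ν in (Uf : Filter ℕ), x ∈ K → a ν x ≠ 0 := by
        intro x
        by_cases hx : x ∈ K
        · have hss : ({x} : Finset (JJ G.d B)) ⊂ K := by
            rw [Finset.ssubset_iff_subset_ne]
            refine ⟨Finset.singleton_subset_iff.2 hx, ?_⟩
            rintro rfl
            rw [Finset.mem_singleton] at hx₁ hx₂
            exact hne12 (hx₁.trans hx₂.symm)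
          filter_upwards [hdich _ (hmin _ hss (Finset.singleton_nonempty x)), s5.nonempty]
            with ν c1 c2 _
          obtain ⟨t, ht⟩ := c2
          have h5 := c1 t ht
          rw [Finset.sum_singleton] at h5
          exact left_ne_zero_of_mul h5
        · exact Filter.Eventually.of_forall fun ν h => absurd h hx
      filter_upwards [Filter.eventually_all.2 h4] with ν c1 x hx
      exact c1 x hx
    obtain ⟨Om4, g1, g2, g3⟩ := use_gct hY G.ι s5 hb3 S i i' (few_W1 hY G.d B S) a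
      (by filter_upwards [s3] with ν c1; exact c1.2.1) K hne ((hV K).1 hK)
      (fun K' hK' hK'n => hdich K' (hmin K' hK' hK'n))
    refine ⟨Om4, ?_, g2, ?_⟩
    · filter_upwards [g1, s4, s1] with ν c1 c2 c3
      exact (c1.trans c2).trans c3
    · refine final_step G.ι Om4 S i i' a x₁ x₂ hlt ?_ ?_ (g3 x₁ hx₁ x₂ hx₂)
      · filter_upwards [g1, sub3, hb, TD_bd hb S] with ν c1 c2 c3 c4 t ht
        have ht' := c2 (c1 ht)
        exact ⟨c3 t ht', (c4 t ht' i).1, (c4 t ht' i').1⟩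
      · filter_upwards [hne] with ν c1
        exact ⟨c1 x₁ hx₁, c1 x₂ hx₂⟩
  · exfalso
    have hcl := classes (fun x : JJ G.d B => x.2) V
      ((hV _).2 (Filter.Eventually.of_forall fun ν t _ => Finset.sum_empty))
      (by
        intro K K0 hK hK0 hss
        rw [hV] at hK hK0 ⊢
        filter_upwards [hK, hK0] with ν c1 c2 t ht
        have h4 := Finset.sum_sdiff (f := fun x => a ν x * tv G.ι (S.T ν i t) (S.T ν i' t) t x) hss
        rw [c1 t ht, c2 t ht, add_zero] at h4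
        exact h4)
      (by
        intro K1 K2 hK1 hK2 hd
        rw [hV] at hK1 hK2 ⊢
        filter_upwards [hK1, hK2] with ν c1 c2 t ht
        rw [Finset.sum_union hd, c1 t ht, c2 t ht, add_zero])
      (by
        intro K hK _ hmin x hx y hy
        by_contra hxy
        apply hex
        rcases lt_or_gt_of_ne (fun h : (x.2 : ℕ) = y.2 => hxy (Fin.ext h)) with h4 | h4
        · exact ⟨K, hK, hmin, y, hy, x, hx, h4⟩
        · exact ⟨K, hK, hmin, x, hx, y, hy, h4⟩)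
      (Finset.univ : Finset (JJ G.d B)).card Finset.univ le_rfl huniv
    refine no_classes h3 hY hb G S i i' a sub3 s5 ?_ (fun g => (hV _).1 (hcl g))
    filter_upwards [s3] with ν c1
    exact ⟨c1.1, c1.2.1⟩

end Pool.Agent.N603.HB
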